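import Mathlib

namespace Pool.Agent.Results.MP_7b40b5_an.Cubic

open Polynomial

variable {k : ℕ}

/-- A substitution acting on words. -/
def ext (σ : Fin k → List (Fin k)) (w : List (Fin k)) : List (Fin k) := w.flatMap σ

/-- The incidence matrix. -/
def inc (σ : Fin k → List (Fin k)) : Matrix (Fin k) (Fin k) ℚ := fun i j => (σ j).count i

/-- The reversal. -/
def rev (σ : Fin k → List (Fin k)) : Fin k → List (Fin k) := fun i => (σ i).reverse

/-- The first `n` letters of an infinite word. -/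
def pre (u : ℕ → Fin k) (n : ℕ) : List (Fin k) := (List.range n).map u

/-- `u` is a one-sided fixed point of `σ`. -/
def IsFix (σ : Fin k → List (Fin k)) (u : ℕ → Fin k) : Prop :=
  ∀ (n i : ℕ) (c : Fin k), (ext σ (pre u n))[i]? = some c → u i = c

/-- Unimodular irreducible Pisot substitutions. -/
def UIP (σ : Fin k → List (Fin k)) : Prop :=
  (∀ i, σ i ≠ []) ∧ |(inc σ).det| = 1 ∧ Irreducible (inc σ).charpoly ∧
    ∃ l : ℝ, 1 < l ∧ aeval l (inc σ).charpoly = 0 ∧
      ∀ z : ℂ, aeval z (inc σ).charpoly = 0 → z ≠ l → ‖z‖ < 1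

/-- Balanced pairs. -/
def Bal (P : List (Fin k) × List (Fin k)) : Prop := ∀ i, P.1.count i = P.2.count i

/-- Minimal balanced pairs. -/
def MinBal (P : List (Fin k) × List (Fin k)) : Prop :=
  Bal P ∧ P.1 ≠ [] ∧ ∀ m < P.1.length, 1 ≤ m → ¬Bal (P.1.take m, P.2.take m)

/-- `L` is the splitting of `P` into minimal balanced pairs. -/
def IsSplit (P : List (Fin k) × List (Fin k)) (L : List (List (Fin k) × List (Fin k))) : Prop :=
  (∀ Q ∈ L, MinBal Q) ∧ (L.map Prod.fst).flatten = P.1 ∧ (L.map Prod.snd).flatten = P.2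

instance (P : List (Fin k) × List (Fin k)) : Decidable (Bal P) := by unfold Bal; infer_instance

instance (P : List (Fin k) × List (Fin k)) : Decidable (MinBal P) := by
  unfold MinBal; infer_instance

lemma ex_fix (σ : Fin k → List (Fin k)) (h : ∀ i, σ i ≠ []) (a b : Fin k) (t : List (Fin k))
    (ha : σ a = a :: b :: t) : ∃ u, IsFix σ u ∧ u 0 = a ∧ u 1 = b := by
  let w : ℕ → List (Fin k) := fun n => (ext σ)^[n] [a]
  have ws : ∀ n, w (n + 1) = ext σ (w n) := fun n => Function.iterate_succ_apply' _ _ _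
  have mono : ∀ {x y}, x <+: y → ext σ x <+: ext σ y := by
    rintro x _ ⟨z, rfl⟩
    exact ⟨ext σ z, List.flatMap_append.symm⟩
  have w1 : w 1 = a :: b :: t := by simp [w, ext, ha]
  have p1 : ∀ n, w n <+: w (n + 1) := by
    intro n
    induction n with
    | zero => rw [w1]; exact ⟨b :: t, rfl⟩
    | succ n ih => rw [ws, ws (n + 1)]; exact mono ih
  have p2 : ∀ n m, n ≤ m → w n <+: w m := fun n m hnm => by
    induction hnm with
    | refl => exact List.prefix_rfl
    | step _ ih => exact ih.trans (p1 _)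
  have len : ∀ x, x.length ≤ (ext σ x).length := by
    intro x
    induction x with
    | nil => simp
    | cons c x ih =>
      have := List.length_pos_iff.2 (h c)
      simp only [ext, List.flatMap_cons, List.length_append, List.length_cons] at *
      omega
  have l : ∀ n, n < (w n).length := by
    intro n
    induction n with
    | zero => simp [w]
    | succ n ih =>
      obtain ⟨z, hz⟩ := p2 0 n (Nat.zero_le n)
      have := len z
      rw [← hz] at ih
      rw [ws, ← hz]
      simp only [w, ext, Function.iterate_zero, id, List.flatMap_append, List.flatMap_cons, ha,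
        List.length_append, List.length_cons, List.flatMap_nil, List.length_nil] at ih this ⊢
      omega
  have get : ∀ {x y : List (Fin k)} {i : ℕ} {c : Fin k}, x <+: y → x[i]? = some c → y[i]? = some c := by
    rintro x _ i c ⟨z, rfl⟩ hx
    rw [List.getElem?_append_left (List.getElem?_eq_some_iff.1 hx).1, hx]
  let u : ℕ → Fin k := fun n => (w n)[n]'(l n)
  have key : ∀ (N i : ℕ) (c : Fin k), (w N)[i]? = some c → u i = c := fun N i c hc => by
    have a1 := get (p2 N (N + i) (by omega)) hc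
    have a2 := get (p2 i (N + i) (by omega)) (List.getElem?_eq_getElem (l i))
    exact Option.some.inj (a2.symm.trans a1)
  refine ⟨u, fun n i c hc => key (n + 1) i c (get (ws n ▸ mono ?_) hc), rfl,
    key 1 1 b (by rw [w1]; rfl)⟩
  have : pre u n = (w n).take n := by
    have := l n
    refine List.ext_getElem (by simp [pre]; omega) fun i h1 h2 => ?_
    simp only [pre, List.getElem_map, List.getElem_range, List.getElem_take]
    exact key n i _ (List.getElem?_eq_getElem _)
  rw [this]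
  exact List.take_prefix _ _

/-- The substitution `0 ↦ 01, 1 ↦ 201, 2 ↦ 0`. -/
def sg : Fin 3 → List (Fin 3) := ![[0, 1], [2, 0, 1], [0]]

/-- The three minimal balanced pairs. -/
def ee : Fin 3 → List (Fin 3) × List (Fin 3) := ![([0, 1], [1, 0]), ([2], [2]), ([0], [0])]

/-- The balanced pair substitution. -/
def SS (P : List (Fin 3) × List (Fin 3)) : List (List (Fin 3) × List (Fin 3)) :=
  if P = ee 0 then [ee 0, ee 1, ee 0] else if P = ee 1 then [ee 2] else [ee 0]

lemma cp1 : (inc sg).charpoly = X ^ 3 - 2 * X ^ 2 - 1 := by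
  have : inc sg = !![1, 1, 1; 1, 1, 0; 0, 1, 0] := by
    ext i j
    fin_cases i <;> fin_cases j <;> simp [inc, sg]
  rw [this]
  simp [Matrix.charpoly, Matrix.det_fin_three]
  ring

lemma cp2 : (Matrix.of fun i j => ((SS (ee j)).count (ee i) : ℚ)).charpoly =
    X ^ 3 - 2 * X ^ 2 - 1 := by
  have : (Matrix.of fun i j => ((SS (ee j)).count (ee i) : ℚ)) = !![2, 0, 1; 1, 0, 0; 0, 1, 0] := by
    have h : ∀ i j, (SS (ee j)).count (ee i) = !![2, 0, 1; 1, 0, 0; 0, 1, 0] i j := by decide
    ext i j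
    rw [Matrix.of_apply, h]
    fin_cases i <;> fin_cases j <;> simp
  rw [this]
  simp [Matrix.charpoly, Matrix.det_fin_three, map_ofNat]
  ring

lemma rv : (X ^ 3 - 2 * X ^ 2 - 1 : ℚ[X]).reverse = 1 - 2 * X - X ^ 3 := by
  have h : (X ^ 3 - 2 * X ^ 2 - 1 : ℚ[X]).natDegree = 3 := by compute_degree!
  rw [reverse, h, show (2 : ℚ[X]) = C 2 from rfl, reflect_sub, reflect_sub, reflect_C_mul_X_pow,
    reflect_monomial, reflect_one]
  simp [revAt]

lemma uip : UIP sg := by
  refine ⟨by decide, ?_, ?_, ?_⟩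
  · simp [inc, sg, Matrix.det_fin_three]
  · rw [cp1]
    refine irreducible_of_degree_le_three_of_not_isRoot (by
      rw [show (X ^ 3 - 2 * X ^ 2 - 1 : ℚ[X]).natDegree = 3 by compute_degree!]; simp) fun r hr => ?_
    obtain ⟨z, hz⟩ := isInteger_of_is_root_of_monic (A := ℤ) (K := ℚ)
      (p := X ^ 3 - 2 * X ^ 2 - 1) (r := r) (by monicity!) (by simpa [map_ofNat] using hr)
    have h : z ^ 3 - 2 * z ^ 2 - 1 = 0 := by
      rw [← hz] at hr
      have : (z : ℚ) ^ 3 - 2 * z ^ 2 - 1 = 0 := by simpa using hr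
      exact_mod_cast this
    rcases Int.eq_one_or_neg_one_of_mul_eq_one (show z * (z ^ 2 - 2 * z) = 1 by
      linear_combination h) with rfl | rfl <;> norm_num at h
  · obtain ⟨l, ⟨l2, -⟩, hl⟩ := intermediate_value_Icc (show (2 : ℝ) ≤ 3 by norm_num)
      (f := fun x => x ^ 3 - 2 * x ^ 2 - 1) (by fun_prop) (show (0 : ℝ) ∈ _ by norm_num)
    simp only at hl
    refine ⟨l, by linarith, by simpa [cp1, map_ofNat] using hl, fun z hz hne => ?_⟩
    have h1 : z ^ 3 - 2 * z ^ 2 - 1 = 0 := by simpa [cp1, map_ofNat] using hz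
    have h2 : (l : ℂ) ^ 3 - 2 * l ^ 2 - 1 = 0 := by exact_mod_cast hl
    have h3 : z ^ 2 = -((l - 2 : ℝ) * (z + l)) := by
      refine mul_left_cancel₀ (sub_ne_zero.2 hne) ?_
      push_cast
      linear_combination h1 - h2
    have a0 : 0 ≤ l - 2 := by linarith
    have h4 : ‖z‖ ^ 2 ≤ (l - 2) * (‖z‖ + l) := by
      rw [← norm_pow, h3, norm_neg, norm_mul, Complex.norm_real, Real.norm_of_nonneg a0]
      gcongr
      refine (norm_add_le _ _).trans ?_
      rw [Complex.norm_real, Real.norm_of_nonneg (by linarith)]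
    have a1 : (l - 2) * l ≤ 1 / 2 := by nlinarith
    have a2 : l - 2 ≤ 1 / 4 := by nlinarith
    by_contra hc
    rw [not_lt] at hc
    nlinarith

theorem result : ∃ (σ : Fin 3 → List (Fin 3)) (u v : ℕ → Fin 3) (n r : ℕ)
    (e : Fin r → List (Fin 3) × List (Fin 3))
    (S : List (Fin 3) × List (Fin 3) → List (List (Fin 3) × List (Fin 3))),
    UIP σ ∧ (inc σ).det = 1 ∧ IsFix σ u ∧ IsFix (rev σ) v ∧ u ≠ v ∧
    1 ≤ n ∧ Bal (pre u n, pre v n) ∧ (∀ m < n, 1 ≤ m → ¬Bal (pre u m, pre v m)) ∧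
    Function.Injective e ∧ (∀ j, IsSplit (ext σ (e j).1, ext (rev σ) (e j).2) (S (e j))) ∧
    (∀ Q, Q ∈ Set.range e ↔
      Relation.ReflTransGen (fun P Q => Q ∈ S P) (pre u n, pre v n) Q) ∧
    (inc σ).charpoly ≠ (inc σ).charpoly.reverse ∧
    ¬(inc σ).charpoly.reverse ∣ (Matrix.of fun i j => ((S (e j)).count (e i) : ℚ)).charpoly := by
  obtain ⟨u, hu, u0, u1⟩ := ex_fix sg (by decide) 0 1 [] rfl
  obtain ⟨v, hv, v0, v1⟩ := ex_fix (rev sg) (by decide) 1 0 [2] rfl
  have e : (pre u 2, pre v 2) = ee 0 := by simp [pre, List.range_succ, u0, u1, v0, v1, ee]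
  have nd : ¬(1 - 2 * X - X ^ 3 : ℚ[X]) ∣ X ^ 3 - 2 * X ^ 2 - 1 := fun h => by
    have h1 : (1 - 2 * X - X ^ 3 : ℚ[X]) ∣ 2 * X ^ 2 + 2 * X := by
      convert (h.add dvd_rfl).neg_right using 1
      ring
    have h2 : (2 * X ^ 2 + 2 * X : ℚ[X]).natDegree = 2 := by compute_degree!
    have h3 : (1 - 2 * X - X ^ 3 : ℚ[X]).natDegree = 3 := by compute_degree!
    have := natDegree_le_of_dvd h1 (by rintro h; simp [h] at h2)
    omega
  refine ⟨sg, u, v, 2, 3, ee, SS, uip, by simp [inc, sg, Matrix.det_fin_three], hu, hv,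
    fun h => by rw [h, v0] at u0; exact absurd u0 (by decide), by norm_num, by rw [e]; decide,
    fun m h1 h2 => ?_, by decide, by unfold IsSplit; decide, fun Q => ⟨?_, fun h => ?_⟩,
    by rw [cp1, rv]; exact fun h => nd (h ▸ dvd_rfl), by rw [cp1, cp2, rv]; exact nd⟩
  · obtain rfl : m = 1 := by omega
    simp only [pre, List.range_one, List.map_cons, List.map_nil, u0, v0]
    decide
  · rw [e]
    have a1 : Relation.ReflTransGen (fun P Q => Q ∈ SS P) (ee 0) (ee 1) :=
      .single (by decide)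
    rintro ⟨j, rfl⟩
    fin_cases j
    exacts [.refl, a1, a1.tail (by decide)]
  · rw [e] at h
    induction h with
    | refl => exact ⟨0, rfl⟩
    | tail _ h _ =>
      unfold SS at h
      split_ifs at h <;> simp only [List.mem_cons, List.not_mem_nil, or_false] at h
      · rcases h with rfl | rfl | rfl <;> exact ⟨_, rfl⟩
      all_goals exact ⟨_, h.symm⟩

end Pool.Agent.Results.MP_7b40b5_an.Cubic
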